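import Pool.Agent.Helper12.TS.St
import Pool.Agent.Helper51.AJ.Basic
import Pool.Agent.Helper86.NK.M_PTR
import Pool.Agent.Helper36.NK.M_KCA

/-!
# Project TS (MP_d63854_co), module PTN: the graphs `K₅` and `K₃,₃`, models
-/

set_option autoImplicit false

namespace Pool.Agent.Helper76.TS

open Pool.Agent.Helper12.TS
open Pool.Agent.Helper51.AJ (IsMinor Planar Apex ExMinor Con Tch)
open Pool.Agent.Helper12.NK (rst Kc add)

/-- a set of pairwise adjacent vertices is connected -/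
private theorem con_clique {V : Type} {G : SimpleGraph V} {S : Set V} (hS : S.Nonempty)
    (h : ∀ x ∈ S, ∀ y ∈ S, x ≠ y → G.Adj x y) : Con G S := by
  obtain ⟨a, ha⟩ := hS
  have : Nonempty S := ⟨⟨a, ha⟩⟩
  refine ⟨fun x y => ?_⟩
  by_cases hxy : x = y
  · rw [hxy]
  · have h1 : (G.induce S).Adj x y := h x.1 x.2 y.1 y.2 fun e => hxy (Subtype.ext e)
    exact h1.reachable

private theorem kc5 : Kc 3 K5 Set.univ := by
  refine ⟨by rw [Set.ncard_univ, Nat.card_eq_fintype_card, Fintype.card_fin]; norm_num, fun X hX => ?_⟩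
  refine con_clique ?_ (fun x _ y _ hxy => hxy)
  by_contra hne
  rw [Set.not_nonempty_iff_eq_empty, Set.diff_eq_empty] at hne
  have h1 : (Set.univ : Set (Fin 5)).ncard ≤ X.ncard := Set.ncard_le_ncard hne (Set.toFinite X)
  rw [Set.ncard_univ, Nat.card_eq_fintype_card, Fintype.card_fin] at h1
  omega

private theorem kc33 : Kc 3 K33 Set.univ := by
  refine ⟨by rw [Set.ncard_univ, Nat.card_eq_fintype_card, Fintype.card_sum, Fintype.card_fin]; norm_num,
    fun X hX => ?_⟩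
  have hl : ∃ i : Fin 3, (Sum.inl i : Fin 3 ⊕ Fin 3) ∉ X := by
    by_contra hne
    push Not at hne
    have h1 : (Set.range (Sum.inl : Fin 3 → Fin 3 ⊕ Fin 3)).ncard ≤ X.ncard :=
      Set.ncard_le_ncard (by rintro _ ⟨i, rfl⟩; exact hne i) (Set.toFinite X)
    rw [Set.ncard_range_of_injective Sum.inl_injective, Nat.card_eq_fintype_card, Fintype.card_fin] at h1
    omega
  have hr : ∃ i : Fin 3, (Sum.inr i : Fin 3 ⊕ Fin 3) ∉ X := by
    by_contra hne
    push Not at hne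
    have h1 : (Set.range (Sum.inr : Fin 3 → Fin 3 ⊕ Fin 3)).ncard ≤ X.ncard :=
      Set.ncard_le_ncard (by rintro _ ⟨i, rfl⟩; exact hne i) (Set.toFinite X)
    rw [Set.ncard_range_of_injective Sum.inr_injective, Nat.card_eq_fintype_card, Fintype.card_fin] at h1
    omega
  obtain ⟨i, hi⟩ := hl
  obtain ⟨j, hj⟩ := hr
  have ci : (Sum.inl i : Fin 3 ⊕ Fin 3) ∈ Set.univ \ X := ⟨trivial, hi⟩
  have cj : (Sum.inr j : Fin 3 ⊕ Fin 3) ∈ Set.univ \ X := ⟨trivial, hj⟩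
  have hij : (K33.induce (Set.univ \ X)).Adj ⟨_, ci⟩ ⟨_, cj⟩ := by
    show K33.Adj (Sum.inl i) (Sum.inr j)
    simp [K33]
  have key : ∀ x : (Set.univ \ X : Set (Fin 3 ⊕ Fin 3)), (K33.induce (Set.univ \ X)).Reachable x ⟨_, cj⟩ := by
    rintro ⟨x | x, hx⟩
    · have h1 : (K33.induce (Set.univ \ X)).Adj ⟨_, hx⟩ ⟨_, cj⟩ := by
        show K33.Adj (Sum.inl x) (Sum.inr j)
        simp [K33]
      exact h1.reachable
    · have h1 : (K33.induce (Set.univ \ X)).Adj ⟨_, hx⟩ ⟨_, ci⟩ := by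
        show K33.Adj (Sum.inr x) (Sum.inl i)
        simp [K33]
      exact h1.reachable.trans hij.reachable
  have : Nonempty (Set.univ \ X : Set (Fin 3 ⊕ Fin 3)) := ⟨⟨_, cj⟩⟩
  exact ⟨fun x y => (key x).trans (key y).symm⟩

private theorem md_union {ι V : Type} {Γ : SimpleGraph ι} {H : SimpleGraph V} {φ : ι → Set V} {K : Set ι}
    (hm : Md Γ H φ) (hK : Con Γ K) : Con H (⋃ k ∈ K, φ k) := by
  set U : Set V := ⋃ k ∈ K, φ k with hU
  have hsub : ∀ k ∈ K, φ k ⊆ U := fun k hk => Set.subset_biUnion_of_mem (u := φ) hk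
  -- inside one set
  have one : ∀ (k : ι) (hk : k ∈ K) (x y : V) (hx : x ∈ φ k) (hy : y ∈ φ k),
      (H.induce U).Reachable ⟨x, hsub k hk hx⟩ ⟨y, hsub k hk hy⟩ := by
    intro k hk x y hx hy
    have h1 := (hm.1 k).preconnected ⟨x, hx⟩ ⟨y, hy⟩
    exact h1.map (SimpleGraph.induceHomOfLE H (hsub k hk)).toHom
  have walk : ∀ (a b : K), (Γ.induce K).Walk a b → ∀ (x y : V) (hx : x ∈ φ a.1) (hy : y ∈ φ b.1),
      (H.induce U).Reachable ⟨x, hsub a.1 a.2 hx⟩ ⟨y, hsub b.1 b.2 hy⟩ := by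
    intro a b p
    induction p with
    | @nil a => exact fun x y hx hy => one a.1 a.2 x y hx hy
    | @cons a c b h p ih =>
      intro x y hx hy
      obtain ⟨u, hu, v, hv, huv⟩ := hm.2.2 a.1 c.1 h
      have h1 := one a.1 a.2 x u hx hu
      have h2 : (H.induce U).Adj ⟨u, hsub a.1 a.2 hu⟩ ⟨v, hsub c.1 c.2 hv⟩ := huv
      exact h1.trans (h2.reachable.trans (ih v y hv hy))
  obtain ⟨k0⟩ := hK.nonempty
  obtain ⟨x0⟩ := (hm.1 k0.1).nonempty
  have : Nonempty U := ⟨⟨x0.1, hsub k0.1 k0.2 x0.2⟩⟩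
  refine ⟨?_⟩
  rintro ⟨x, hx⟩ ⟨y, hy⟩
  obtain ⟨k, hk, hxk⟩ := Set.mem_iUnion₂.1 hx
  obtain ⟨l, hl, hyl⟩ := Set.mem_iUnion₂.1 hy
  obtain ⟨p⟩ := hK.preconnected ⟨k, hk⟩ ⟨l, hl⟩
  exact walk ⟨k, hk⟩ ⟨l, hl⟩ p x y hxk hyl

private theorem card_md {ι κ : Type} [Finite ι] {Γ : SimpleGraph κ} {H : SimpleGraph ι} {φ : κ → Set ι}
    (hm : Md Γ H φ) : Nat.card κ ≤ Nat.card ι := by
  have hne : ∀ w, (φ w).Nonempty := fun w => by
    obtain ⟨x⟩ := (hm.1 w).nonempty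
    exact ⟨x.1, x.2⟩
  choose f hf using hne
  have hinj : Function.Injective f := by
    intro w w' h
    by_contra hne
    exact (Set.disjoint_left.1 (hm.2.1 w w' hne)) (hf w) (h ▸ hf w')
  exact Nat.card_le_card_of_injective f hinj

theorem hPTN : StPTN := by
  have n5 : ¬ Planar K5 := fun h => h.1 (Pool.Agent.Helper51.AJ.isMinor_refl _)
  have n33 : ¬ Planar K33 := fun h => h.2 (Pool.Agent.Helper51.AJ.isMinor_refl _)
  have p5 : ∀ (V : Type) (H : SimpleGraph V), ¬ Planar H → (∃ φ, Md K5 H φ) ∨ ∃ φ, Md K33 H φ := by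
    intro V H h
    by_contra hc
    rw [not_or] at hc
    exact h ⟨hc.1, hc.2⟩
  refine ⟨kc5, kc33, n5, n33, p5, ?_, fun ι V Γ H φ K => md_union, ?_, ?_, ?_⟩
  · intro ι V Γ H φ hm hn hp
    exact hn (Pool.Agent.Helper86.NK.hPTR ι V Γ H φ (fun a _ _ => hm.1 a) (fun a _ b _ hab _ _ => hm.2.1 a b hab)
      (fun a a' h => hm.2.2 a a' h) hp)
  · intro V H h
    rcases p5 V H h with ⟨φ, hφ⟩ | ⟨φ, hφ⟩
    · exact ⟨Fin 5, inferInstance, K5, φ, by rw [Nat.card_eq_fintype_card, Fintype.card_fin]; norm_num, kc5, n5, hφ⟩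
    · exact ⟨Fin 3 ⊕ Fin 3, inferInstance, K33, φ,
        by rw [Nat.card_eq_fintype_card, Fintype.card_sum, Fintype.card_fin], kc33, n33, hφ⟩
  · intro ι _ Γ h
    rcases p5 ι Γ h with ⟨φ, hφ⟩ | ⟨φ, hφ⟩
    · have h1 := card_md hφ
      rw [Nat.card_eq_fintype_card, Fintype.card_fin] at h1
      exact h1
    · have h1 := card_md hφ
      rw [Nat.card_eq_fintype_card, Fintype.card_sum, Fintype.card_fin] at h1
      omega
  · intro ι _ Γ hK i I hI
    have h1 := (Pool.Agent.Helper36.NK.hKCA Pool.Agent.Helper86.NK.hPTR ι Γ Set.univ).2.2.1 3 hK i trivial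
    by_contra hc
    push Not at hc
    have h2 : {b | b ∈ Set.univ ∧ Γ.Adj i b} ⊆ I := by
      rintro b ⟨-, hb⟩
      by_contra hbI
      exact hc b hbI hb
    have h3 := Set.ncard_le_ncard h2 (Set.toFinite I)
    omega

end Pool.Agent.Helper76.TS
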